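import Pool.Agent.K1H85.CL.Fin2

/-!
# The central limit theorem under the two-sided square root conditions

For every stationary ergodic Markov chain and every `f` in the ranges of `√(I-Q)` and of
`√(I-Q*)` on `L²(π)`, `E(S_n²)/n` converges to some `σ² ≥ 0` and `S_n/√n` converges in
distribution to `N(0,σ²)`.  This is a positive answer to Q1.
-/

open MeasureTheory ProbabilityTheory Filter
open scoped Topology

namespace Pool.Agent.Results.MP_cd27db_pr.TwoSidedSquareRoot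

universe u v

noncomputable section

/-- The coefficients in `√(1-x) = 1 - ∑_{n ≥ 0} delta n * x^(n+1)`. -/
def delta (n : ℕ) : ℝ := (catalan n : ℝ) / (2 * 4 ^ n)

/-- `delta` is positive with sum `1` and gives the expansion of `√(1-x)` on `[0,1]`. -/
def DeltaExpandsSqrt : Prop :=
  (∀ n, 0 < delta n) ∧ HasSum delta 1 ∧
    ∀ x ∈ Set.Icc (0 : ℝ) 1, HasSum (fun n => delta n * x ^ (n + 1)) (1 - √(1 - x))

section

variable {X : Type u} [MeasurableSpace X] {Ω : Type v} [MeasurableSpace Ω]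

/-- The iterates `Q^n φ` of the Markov operator `(Q φ)(x) = ∫ φ(y) κ(x,dy)`. -/
def markovPow (κ : Kernel X X) : ℕ → (X → ℝ) → X → ℝ
  | 0, φ => φ
  | n + 1, φ => fun x => ∫ y, markovPow κ n φ y ∂(κ x)

/-- `f ∈ √(I - Q) L²(π)` : there is `g ∈ L²(π)` with `f = g - ∑_{n ≥ 0} delta n * Q^(n+1) g`,
the series being taken in `L²(π)`. -/
def InSqrtRange (κ : Kernel X X) (π : Measure X) (f : X → ℝ) : Prop :=
  ∃ g : X → ℝ, MemLp g 2 π ∧ Tendsto (fun N : ℕ =>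
    ∫ x, (f x - (g x - ∑ n ∈ Finset.range N, delta n * markovPow κ (n + 1) g x)) ^ 2 ∂π)
      atTop (𝓝 0)

/-- `v = Q* w` : `v ∈ L²(π)` and `⟨v, φ⟩ = ⟨w, Q φ⟩` for all `φ ∈ L²(π)`. -/
def IsAdjointImage (κ : Kernel X X) (π : Measure X) (w v : X → ℝ) : Prop :=
  MemLp v 2 π ∧ ∀ φ : X → ℝ, MemLp φ 2 π →
    ∫ x, v x * φ x ∂π = ∫ x, w x * ∫ y, φ y ∂(κ x) ∂π

/-- `f ∈ √(I - Q*) L²(π)` : there are `g_0 ∈ L²(π)` and `g_(n+1) = Q* g_n` with
`f = g_0 - ∑_{n ≥ 0} delta n * g_(n+1)`, the series being taken in `L²(π)`. -/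
def InAdjointSqrtRange (κ : Kernel X X) (π : Measure X) (f : X → ℝ) : Prop :=
  ∃ g : ℕ → X → ℝ, MemLp (g 0) 2 π ∧ (∀ n, IsAdjointImage κ π (g n) (g (n + 1))) ∧
    Tendsto (fun N : ℕ =>
      ∫ x, (f x - (g 0 x - ∑ n ∈ Finset.range N, delta n * g (n + 1) x)) ^ 2 ∂π) atTop (𝓝 0)

/-- Ergodicity: the only `φ ∈ L²(π)` with `Q φ = φ` are the constants. -/
def IsErgodic (κ : Kernel X X) (π : Measure X) : Prop :=
  ∀ φ : X → ℝ, MemLp φ 2 π → (∀ᵐ x ∂π, ∫ y, φ y ∂(κ x) = φ x) → ∃ c : ℝ, ∀ᵐ x ∂π, φ x = c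

/-- `(ξ_n)_{n ∈ ℤ}` is a stationary Markov chain with transition kernel `κ` and invariant
law `π`: all `ξ_n` have law `π` and
`P(ξ_{n+1} ∈ A | ξ_i, i ≤ n) = κ(ξ_n, A)` almost surely. -/
structure StationaryMarkovChain (κ : Kernel X X) (π : Measure X) (P : Measure Ω)
    (ξ : ℤ → Ω → X) : Prop where
  prob : IsProbabilityMeasure P
  meas : ∀ n, Measurable (ξ n)
  law : ∀ n, P.map (ξ n) = π
  markov : ∀ (n : ℤ) (A : Set X), MeasurableSet A →
    P[(ξ (n + 1) ⁻¹' A).indicator (fun _ => (1 : ℝ)) |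
      ⨆ i : Set.Iic n, MeasurableSpace.comap (ξ i) inferInstance] =ᵐ[P]
        fun ω => (κ (ξ n ω) A).toReal

/-- The partial sums `S_n = ∑_{i=1}^n f(ξ_i)`. -/
def partialSum (f : X → ℝ) (ξ : ℤ → Ω → X) (n : ℕ) (ω : Ω) : ℝ :=
  ∑ i ∈ Finset.range n, f (ξ ((i : ℤ) + 1) ω)

/-- The CLT: there is `σ² ≥ 0` with `E(S_n²)/n → σ²`, and `S_n/√n` converges in distribution to
`N(0,σ²)`. -/
def HasCLT (P : Measure Ω) (f : X → ℝ) (ξ : ℤ → Ω → X) : Prop :=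
  ∃ σ2 : NNReal,
    Tendsto (fun n : ℕ => (∫ ω, partialSum f ξ n ω ^ 2 ∂P) / n) atTop (𝓝 (σ2 : ℝ)) ∧
    ∀ φ : BoundedContinuousFunction ℝ ℝ, Tendsto
      (fun n : ℕ => ∫ ω, φ (partialSum f ξ n ω / √n) ∂P) atTop
      (𝓝 (∫ x, φ x ∂(gaussianReal 0 σ2)))

end

lemma markovPow_eq {X : Type u} [MeasurableSpace X] (κ : Kernel X X) (n : ℕ) (φ : X → ℝ) :
    markovPow κ n φ = Pool.Agent.K1H85.CL.mpow κ n φ := by
  induction n with
  | zero => rfl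
  | succ n ih => simp only [markovPow, Pool.Agent.K1H85.CL.mpow, ih]

/-- **Positive answer to Q1.** -/
theorem result :
    DeltaExpandsSqrt ∧
    ∀ (X : Type u) [MeasurableSpace X] (κ : Kernel X X) [IsMarkovKernel κ]
      (π : Measure X) [IsProbabilityMeasure π], κ.Invariant π → IsErgodic κ π →
      ∀ (Ω : Type v) [MeasurableSpace Ω] (P : Measure Ω) (ξ : ℤ → Ω → X),
        StationaryMarkovChain κ π P ξ →
        ∀ f : X → ℝ, Measurable f → MemLp f 2 π →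
          InSqrtRange κ π f → InAdjointSqrtRange κ π f → HasCLT P f ξ := by
  have hSQ := Pool.Agent.K1H85.CL.t_SQ.{u}
  refine ⟨⟨hSQ.1, hSQ.2.1, hSQ.2.2.2.1⟩, ?_⟩
  intro X _ κ _ π _ hinv hErg Ω _ P ξ hch f hmf hf h1 h2
  refine Pool.Agent.K1H85.CL.final2 κ π hinv hErg Ω P ξ
    ⟨hch.prob, hch.meas, hch.law, hch.markov⟩ f hmf hf ?_ h2
  obtain ⟨g, hg, hlim⟩ := h1
  refine ⟨g, hg, ?_⟩
  simp only [← markovPow_eq]
  exact hlim

end

end Pool.Agent.Results.MP_cd27db_pr.TwoSidedSquareRoot
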